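import Pool.Agent.MP_151d89_pr.H58.All3
import Pool.Agent.MP_151d89_pr.H5.Grad
import Pool.Agent.MP_151d89_pr.H5.Ell

/-!
The mean height function of a tail trivial Gibbs measure: typical boundary conditions,
concentration, the maximum principle, the corridor principle and long tight segments.
-/

set_option autoImplicit false
open MeasureTheory Finset Filter

namespace Pool.Agent.MP_151d89_pr.H95
open Pool.Agent.MP_151d89_pr.H82 Pool.Agent.MP_151d89_pr.H33 Pool.Agent.MP_151d89_pr.H67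
  Pool.Agent.MP_151d89_pr.H30 Pool.Agent.MP_151d89_pr.H58
open Pool.Agent.MP_151d89_pr.H5 (ell)
open Classical

variable {μ ν : Measure Conf}

/-- finite volume averages converge in probability, the bound is needed on homomorphisms only -/
theorem near1 (hμ : Gibbs μ) (hT : Triv μ) {φ : Conf → ℝ} (hφ : Measurable φ) {B : ℝ}
    (hB : ∀ f, Hom f → |φ f| ≤ B) {δ ε : ℝ} (hδ : 0 < δ) (hε : 0 < ε) :
    ∀ᶠ m : ℕ in atTop, μ.real {g | δ ≤ |av (box 0 m) φ g - ∫ f, φ f ∂μ|} < ε := by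
  have h0 : 0 < |B| + 1 := by positivity
  have m1 : Measurable fun f => (|B| + 1)⁻¹ * (ind (Hom f) * φ f) :=
    ((meas_ind meas_hom).mul hφ).const_mul _
  have b1 : ∀ f, |(|B| + 1)⁻¹ * (ind (Hom f) * φ f)| ≤ 1 := fun f => by
    rw [abs_mul, abs_of_pos (inv_pos.2 h0), inv_mul_le_iff₀ h0, mul_one]
    by_cases e : Hom f
    · rw [ind_pos e, one_mul]
      linarith [hB f e, le_abs_self B]
    · rw [ind_neg e, zero_mul, abs_zero]
      exact h0.le
  have e1 : ∫ f, (|B| + 1)⁻¹ * (ind (Hom f) * φ f) ∂μ = (|B| + 1)⁻¹ * ∫ f, φ f ∂μ := by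
    rw [integral_const_mul]
    congr 1
    exact integral_congr_ae (hμ.2.1.mono fun f hf => by simp only [ind_pos hf, one_mul])
  have e2 : ∀ (m : ℕ) (g : Conf), av (box 0 m) (fun f => (|B| + 1)⁻¹ * (ind (Hom f) * φ f)) g =
      (|B| + 1)⁻¹ * av (box 0 m) φ g := fun m g => by
    rw [av_smul]
    congr 1
    exact av_eq fun a ha => by rw [ind_pos (mem_FS.1 ha).1, one_mul]
  have := hμ.1
  filter_upwards [H5.GradAux.cheb2 hμ hT m1 b1 (δ := ((|B| + 1)⁻¹ * δ) ^ 2) (by positivity) hε]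
    with m hm
  refine lt_of_le_of_lt (measureReal_mono fun g hg => ?_) hm
  simp only [Set.mem_ofPred_eq, e1, e2] at hg ⊢
  rw [← mul_sub, mul_pow, mul_pow, ← sq_abs (_ - _)]
  gcongr

/-- typical boundary conditions for finitely many functions -/
theorem typ (hμ : Gibbs μ) (hT : Triv μ) {ι : Type} (I : Finset ι) {φ : ι → Conf → ℝ}
    (hφ : ∀ i ∈ I, Measurable (φ i)) {B : ℝ} (hB : ∀ i ∈ I, ∀ f, Hom f → |φ i f| ≤ B) {δ : ℝ}
    (hδ : 0 < δ) : ∀ᶠ m : ℕ in atTop, ∃ g, Hom g ∧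
      ∀ i ∈ I, |av (box 0 m) (φ i) g - ∫ f, φ i f ∂μ| < δ := by
  have := hμ.1
  have h0 : (0 : ℝ) < 1 / (I.card + 1) := by positivity
  filter_upwards [(eventually_all_finset I).2 fun i hi =>
    near1 hμ hT (hφ i hi) (hB i hi) hδ h0] with m hm
  by_contra hc
  have h1 : μ.real Set.univ ≤
      μ.real (⋃ i ∈ I, {g | δ ≤ |av (box 0 m) (φ i) g - ∫ f, φ i f ∂μ|}) := by
    refine ENNReal.toReal_mono (measure_ne_top _ _) (measure_mono_ae ?_)
    filter_upwards [hμ.2.1] with g hg _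
    by_contra e
    exact hc ⟨g, hg, fun i hi => lt_of_not_ge fun e' => e (Set.mem_iUnion₂.2 ⟨i, hi, e'⟩)⟩
  have h2 := h1.trans ((measureReal_biUnion_finset_le _ _).trans
    (sum_le_sum fun i hi => (hm i hi).le))
  rw [probReal_univ, sum_const, nsmul_eq_mul, mul_one_div, one_le_div (by positivity)] at h2
  linarith

theorem meas_inc (x y : ℤ × ℤ) : Measurable fun f : Conf => (f y : ℝ) - f x := by fun_prop

theorem meas_dev (x y : ℤ × ℤ) (a c : ℝ) :
    MeasurableSet {f : Conf | a < |((f y : ℝ) - f x) - c|} :=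
  measurableSet_lt measurable_const
    (continuous_abs.measurable.comp ((meas_inc x y).sub_const c))

/-- exponential concentration of the increments around the mean -/
theorem incr (hμ : Gibbs μ) (hT : Triv μ) (x y : ℤ × ℤ) {t : ℝ} (ht : 1 ≤ t) :
    μ.real {f | t * (6 * √(dist1 x y) + 5) < |((f y : ℝ) - f x) - (ell μ y - ell μ x)|} ≤
      2 * Real.exp (-(t / 2)) := by
  refine le_of_forall_pos_le_add fun η hη => ?_
  have hm := meas_dev x y (t * (6 * √(dist1 x y) + 5)) (ell μ y - ell μ x)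
  have d0 : (0 : ℝ) ≤ dist1 y x := by exact_mod_cast add_nonneg (abs_nonneg _) (abs_nonneg _)
  obtain ⟨m, g, hg, h⟩ := (typ hμ hT (univ : Finset Bool) (φ := fun b f => if b then
      ind (t * (6 * √(dist1 x y) + 5) < |((f y : ℝ) - f x) - (ell μ y - ell μ x)|)
      else (f y : ℝ) - f x) (B := 1 + dist1 y x)
    (fun b _ => by
      cases b
      · exact meas_inc x y
      · exact meas_ind hm)
    (fun b _ f hf => by
      cases b
      · exact (inc_abs hf y x).trans (by linarith)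
      · exact (ind_abs _).trans (by linarith)) (lt_min hη one_pos)).exists
  have h1 := (h true (mem_univ _)).trans_le (min_le_left _ _)
  have h2 := (h false (mem_univ _)).trans_le (min_le_right _ _)
  simp only [if_true, Bool.false_eq_true, if_false] at h1 h2
  rw [int_ind μ hm] at h1
  rw [H5.EllAux.ell_sub hμ, av_sub] at h2
  change |mn _ g y - mn _ g x - _| < 1 at h2
  have h3 := (av_mono' (Λ := box 0 m) (g := g) (p := fun f => t * (6 * √(dist1 x y) + 5) <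
    |((f y : ℝ) - f x) - (ell μ y - ell μ x)|) fun f _ e => ?_).trans
      (incr_all (box 0 m) g x y t hg ht)
  · linarith [(abs_lt.1 h1).1]
  · have := abs_sub_le ((f y : ℝ) - f x) (mn (box 0 m) g y - mn (box 0 m) g x)
      (ell μ y - ell μ x)
    linarith

theorem dist_box {z x y : ℤ × ℤ} {n : ℕ} (hx : x ∈ box z n) (hy : y ∈ box z n) :
    (dist1 x y : ℝ) ≤ 4 * n := by
  rw [mem_box] at hx hy
  have : dist1 x y ≤ 4 * n := by
    simp only [dist1, Int.abs_eq_natAbs]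
    omega
  exact_mod_cast this

/-- almost sure uniform concentration in boxes -/
theorem unif (hμ : Gibbs μ) (hT : Triv μ) : ∀ᵐ f ∂μ, ∀ᶠ R : ℕ in atTop, ∀ x ∈ box 0 R,
    ∀ y ∈ box 0 R, |((f y : ℝ) - f x) - (ell μ y - ell μ x)| ≤
      12 * lg R * (6 * √(dist1 x y) + 5) := by
  have := hμ.1
  have key : ∀ᵐ f ∂μ, ∀ᶠ k : ℕ in atTop, f ∉ ⋃ p ∈ box 0 (k + 1) ×ˢ box 0 (k + 1),
      {f : Conf | 12 * lg (k + 1) * (6 * √(dist1 p.1 p.2) + 5) <
        |((f p.2 : ℝ) - f p.1) - (ell μ p.2 - ell μ p.1)|} := by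
    refine FinalP.bc (b := fun k => 162 * (1 / ((k : ℝ) + 1) ^ 2)) (fun k => ?_) ?_
    · refine (measureReal_biUnion_finset_le _ _).trans ((sum_le_sum fun p _ =>
        incr hμ hT p.1 p.2 (by linarith [one_le_lg (n := k + 1)])).trans ?_)
      have e : 12 * lg (k + 1) / 2 = (6 : ℕ) * lg (k + 1) := by push_cast; ring
      rw [sum_const, card_product, card_box, nsmul_eq_mul, e, exp_lg (Nat.le_add_left 1 k)]
      push_cast
      have h1 : (1 : ℝ) ≤ k + 1 := le_add_of_nonneg_left (Nat.cast_nonneg k)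
      generalize (k : ℝ) + 1 = r at h1
      have h2 : Real.exp (-6) ≤ 1 := Real.exp_le_one_iff.2 (by norm_num)
      calc (2 * r + 1) ^ 2 * (2 * r + 1) ^ 2 * (2 * (Real.exp (-6) / r ^ 6))
          ≤ (3 * r) ^ 2 * (3 * r) ^ 2 * (2 * (1 / r ^ 6)) := by gcongr <;> linarith
        _ = 162 * (1 / r ^ 2) := by field_simp; norm_num
    · refine Summable.mul_left _ ?_
      exact_mod_cast (summable_nat_add_iff 1).2 (Real.summable_one_div_nat_pow.2 one_lt_two)
  filter_upwards [key] with f hf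
  obtain ⟨N, hN⟩ := eventually_atTop.1 hf
  refine eventually_atTop.2 ⟨N + 1, fun R hR x hx y hy => ?_⟩
  obtain ⟨k, rfl⟩ : ∃ k, R = k + 1 := ⟨R - 1, by omega⟩
  by_contra e
  exact hN k (by omega) (Set.mem_iUnion₂.2 ⟨(x, y), mem_product.2 ⟨hx, hy⟩, not_le.1 e⟩)

theorem lg_small {κ : ℝ} (hκ : 0 < κ) : ∀ᶠ n : ℕ in atTop, lg n * √n ≤ κ * n := by
  have h1 := (isLittleO_log_rpow_atTop (r := 1 / 2) (by norm_num)).bound (half_pos hκ)
  have h2 := (tendsto_rpow_atTop (y := 1 / 2) (by norm_num)).eventually_ge_atTop (2 / κ)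
  filter_upwards [tendsto_natCast_atTop_atTop.eventually h1,
    tendsto_natCast_atTop_atTop.eventually h2] with n a1 a2
  rw [← Real.sqrt_eq_rpow] at a1 a2
  rw [Real.norm_eq_abs, Real.norm_eq_abs, abs_of_nonneg (Real.sqrt_nonneg _)] at a1
  rw [div_le_iff₀ hκ] at a2
  have a3 : lg n ≤ κ * √n := by
    unfold lg
    linarith [le_abs_self (Real.log n)]
  calc lg n * √n ≤ κ * √n * √n := by gcongr
    _ = κ * n := by rw [mul_assoc, Real.mul_self_sqrt n.cast_nonneg]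

theorem sqrt_bd {d : ℝ} {n : ℕ} (hn : 1 ≤ n) (h : d ≤ 9 * n) : 6 * √d + 5 ≤ 23 * √n := by
  have h1 : (1 : ℝ) ≤ √n := Real.one_le_sqrt.2 (by exact_mod_cast hn)
  have h2 : √d ≤ 3 * √n := by
    rw [Real.sqrt_le_left (by positivity), mul_pow, Real.sq_sqrt n.cast_nonneg]
    linarith
  linarith

/-- the law of large numbers in boxes -/
theorem unif' (hμ : Gibbs μ) (hT : Triv μ) : ∀ᵐ f ∂μ, ∀ κ : ℝ, 0 < κ → ∀ᶠ R : ℕ in atTop,
    ∀ x ∈ box 0 R, ∀ y ∈ box 0 R, |((f y : ℝ) - f x) - (ell μ y - ell μ x)| ≤ κ * R := by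
  filter_upwards [unif hμ hT] with f hf κ hκ
  filter_upwards [hf, lg_small (κ := κ / 276) (by positivity), eventually_ge_atTop 1]
    with R h1 h2 h3 x hx y hy
  have h4 := sqrt_bd h3 ((dist_box hx hy).trans (by linarith [R.cast_nonneg (α := ℝ)]))
  have h5 := mul_le_mul_of_nonneg_left h4 (show 0 ≤ 12 * lg R by linarith [one_le_lg (n := R)])
  linarith [h1 x hx y hy]

/-- a typical function near a finite set -/
theorem ex_good (hμ : Gibbs μ) (hT : Triv μ) {D : Finset (ℤ × ℤ)} {x z : ℤ × ℤ} {N : ℕ}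
    (hN : 1 ≤ N) (hx : x ∈ D) (hD : D ⊆ box z N) : ∃ f, Hom f ∧
      (∀ y ∈ box z (N + 1), |((f y : ℝ) - f x) - (ell μ y - ell μ x)| ≤ 230 * (lg N * √N)) ∧
      |(f x : ℝ) - mn D f x| ≤ 230 * (lg N * √N) := by
  have := hμ.1
  have l1 := one_le_lg (n := N)
  have N1 : (1 : ℝ) ≤ N := by exact_mod_cast hN
  have hx' : x ∈ box z (N + 1) := H5.box_mono z (Nat.le_succ N) (hD hx)
  have hd : ∀ y ∈ box z (N + 1), 10 * lg N * (6 * √(dist1 x y) + 5) ≤ 230 * (lg N * √N) :=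
    fun y hy => by
      have h1 := dist_box hx' hy
      push_cast at h1
      have h2 := mul_le_mul_of_nonneg_left (sqrt_bd hN (h1.trans (by linarith)))
        (show 0 ≤ 10 * lg N by linarith)
      linarith
  have he : 2 * Real.exp (-(10 * lg N / 2)) ≤ 1 / (50 * N ^ 2) := by
    have e : 10 * lg N / 2 = (5 : ℕ) * lg N := by push_cast; ring
    have h1 : Real.exp (-(5 : ℕ)) ≤ 1 / 100 := by
      rw [Real.exp_neg, ← Real.exp_one_pow, one_div]
      refine inv_anti₀ (by norm_num) ?_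
      refine le_trans (by norm_num) (pow_le_pow_left₀ (by norm_num) Real.exp_one_gt_d9.le 5)
    have h2 : (N : ℝ) ^ 2 ≤ N ^ 5 := pow_le_pow_right₀ N1 (by norm_num)
    rw [e, exp_lg hN]
    calc 2 * (Real.exp (-(5 : ℕ)) / (N : ℝ) ^ 5) ≤ 2 * (1 / 100 / (N : ℝ) ^ 2) := by gcongr
      _ = 1 / (50 * (N : ℝ) ^ 2) := by field_simp; norm_num
  obtain ⟨w, w1, w2, -⟩ := H58.exit z x N hx'
  have w3 : w ∈ box z (N + 1) := GlueP.mem_bx.2 w1.le
  have w4 : w ∉ D := fun e => w2 (hD e)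
  have m0 : Measurable fun f : Conf => (f x : ℝ) := by fun_prop
  have m1 : MeasurableSet {f : Conf | 230 * (lg N * √N) < |(f x : ℝ) - mn D f x|} :=
    measurableSet_lt measurable_const (continuous_abs.measurable.comp (m0.sub (meas_av D m0)))
  have p1 : μ.real {f : Conf | 230 * (lg N * √N) < |(f x : ℝ) - mn D f x|} ≤
      1 / (50 * N ^ 2) := by
    rw [← int_ind μ m1, ← int_av hμ D (meas_ind m1) fun f => ind_abs _]
    refine (integral_mono_ae (intg (meas_av _ (meas_ind m1)) (av_abs fun f => ind_abs _))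
      (integrable_const _) (hμ.2.1.mono fun g hg => (av_mono' fun f hf e => ?_).trans
        ((incr_all D g w x (10 * lg N) hg (by linarith)).trans he))).trans (le_of_eq (by simp))
    rw [mn_out hg w4, (mem_FS.1 hf).2 w w4, sub_sub_sub_cancel_right, ← mn_congr hf,
      MacP.dist_comm' w x]
    have := hd w w3
    nlinarith
  have p2 : μ.real (⋃ y ∈ box z (N + 1), {f : Conf | 10 * lg N * (6 * √(dist1 x y) + 5) <
      |((f y : ℝ) - f x) - (ell μ y - ell μ x)|}) ≤ 1 / 2 := by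
    refine (measureReal_biUnion_finset_le _ _).trans ((sum_le_sum fun y _ =>
      (incr hμ hT x y (by linarith)).trans he).trans ?_)
    rw [sum_const, card_box, nsmul_eq_mul, mul_one_div, div_le_iff₀ (by positivity)]
    push_cast
    nlinarith
  by_contra hc
  have h1 : μ.real Set.univ ≤ μ.real ({f : Conf | 230 * (lg N * √N) < |(f x : ℝ) - mn D f x|} ∪
      ⋃ y ∈ box z (N + 1), {f : Conf | 10 * lg N * (6 * √(dist1 x y) + 5) <
      |((f y : ℝ) - f x) - (ell μ y - ell μ x)|}) := by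
    refine ENNReal.toReal_mono (measure_ne_top _ _) (measure_mono_ae ?_)
    filter_upwards [hμ.2.1] with f hf _
    by_contra e
    refine hc ⟨f, hf, fun y hy => le_trans (le_of_not_gt fun e' =>
      e (Or.inr (Set.mem_iUnion₂.2 ⟨y, hy, e'⟩))) (hd y hy), le_of_not_gt fun e' => e (Or.inl e')⟩
  have h2 := h1.trans ((measureReal_union_le _ _).trans (add_le_add p1 p2))
  have h3 : 1 / (50 * (N : ℝ) ^ 2) ≤ 1 / 50 :=
    one_div_le_one_div_of_le (by norm_num) (by nlinarith)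
  rw [probReal_univ] at h2
  linarith

/-- the maximum principle for the means of two tail trivial Gibbs measures -/
theorem mp (hμ : Gibbs μ) (hT : Triv μ) (hν : Gibbs ν) (hT' : Triv ν) {D : Finset (ℤ × ℤ)}
    {x z : ℤ × ℤ} {N : ℕ} {c : ℝ} (hN : 1 ≤ N) (hx : x ∈ D) (hD : D ⊆ box z N)
    (h : ∀ y, Bdy D y → ell μ y ≤ ell ν y + c) :
    ell μ x ≤ ell ν x + c + 922 * (lg N * √N) := by
  obtain ⟨f, hf, f1, f2⟩ := ex_good hμ hT hN hx hD
  obtain ⟨g, hg, g1, g2⟩ := ex_good hν hT' hN hx hD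
  have h1 := MPP.key hf hg hx (c := f x - g x + ell ν x - ell μ x + c + 460 * (lg N * √N))
    fun y hy => by
      have := MP2P.bdy_box hD hy
      linarith [(abs_le.1 (f1 y this)).2, (abs_le.1 (g1 y this)).1, h y hy]
  have h2 : 1 ≤ lg N * √N := one_le_mul_of_one_le_of_one_le one_le_lg
    (Real.one_le_sqrt.2 (by exact_mod_cast hN))
  linarith [(abs_le.1 f2).2, (abs_le.1 g2).1]

/-- the corridor principle for two measures -/
theorem cp (hμ : Gibbs μ) (hT : Triv μ) (hν : Gibbs ν) (hT' : Triv ν) {x : ℤ × ℤ} {N : ℕ} {c : ℝ}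
    (hN : 1 ≤ N) (h : c + 922 * (lg N * √N) < ell μ x - ell ν x) : ∃ y, y ∉ box x N ∧
      Relation.ReflTransGen (fun p q => dist1 p q = 1 ∧ c < ell μ q - ell ν q) x y := by
  by_contra hc
  push Not at hc
  have := mp hμ hT hν hT' (D := (box x N).filter fun y =>
    Relation.ReflTransGen (fun p q => dist1 p q = 1 ∧ c < ell μ q - ell ν q) x y) (c := c) hN
    (mem_filter.2 ⟨H5.self_mem_box x N, .refl⟩) (filter_subset _ _) fun y hy => ?_
  · linarith
  · obtain ⟨y1, y', y2, y3⟩ := hy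
    by_contra e
    have r := (mem_filter.1 y2).2.tail (c := y)
      ⟨by rw [MacP.dist_comm', y3], by linarith [not_le.1 e]⟩
    exact y1 (mem_filter.2 ⟨by_contra fun e' => hc y e' r, r⟩)

theorem ell_T (hμ : Gibbs μ) (φ : ℤ × ℤ ≃ ℤ × ℤ) (ε k : ℤ) (y : ℤ × ℤ) :
    ell (μ.map (FinalAux.T φ ε k)) y = ε * ell μ (φ y) - ε * ell μ (φ (0, 0)) := by
  rw [ell, integral_map (FinalAux.meas_T φ ε k).aemeasurable
    (meas_inc (0, 0) y).aestronglyMeasurable, ← mul_sub, ← H5.EllAux.ell_sub hμ,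
    ← integral_const_mul]
  congr 1
  funext f
  simp only [FinalAux.T]
  push_cast
  ring

/-- the maximum principle for two symmetric images of the mean -/
theorem mpT (hμ : Gibbs μ) (hT : Triv μ) {φ φ' : ℤ × ℤ ≃ ℤ × ℤ} (hφ : FinalAux.Iso φ)
    (hφ' : FinalAux.Iso φ') {ε ε' : ℤ} (hε : ε * ε = 1) (hε' : ε' * ε' = 1) {D : Finset (ℤ × ℤ)}
    {x z : ℤ × ℤ} {N : ℕ} {c : ℝ} (hN : 1 ≤ N) (hx : x ∈ D) (hD : D ⊆ box z N)
    (h : ∀ y, Bdy D y → ε * ell μ (φ y) ≤ ε' * ell μ (φ' y) + c) :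
    ε * ell μ (φ x) ≤ ε' * ell μ (φ' x) + c + 922 * (lg N * √N) := by
  have := mp (FinalAux.gibbs_T hμ hφ hε 0) (H5.triv_T hT φ ε 0) (FinalAux.gibbs_T hμ hφ' hε' 0)
    (H5.triv_T hT φ' ε' 0) (c := c + ε' * ell μ (φ' (0, 0)) - ε * ell μ (φ (0, 0))) hN hx hD
    fun y hy => by
      rw [ell_T hμ, ell_T hμ]
      linarith [h y hy]
  rw [ell_T hμ, ell_T hμ] at this
  linarith

/-- the corridor principle for two symmetric images of the mean -/
theorem cpT (hμ : Gibbs μ) (hT : Triv μ) {φ φ' : ℤ × ℤ ≃ ℤ × ℤ} (hφ : FinalAux.Iso φ)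
    (hφ' : FinalAux.Iso φ') {ε ε' : ℤ} (hε : ε * ε = 1) (hε' : ε' * ε' = 1) {x : ℤ × ℤ} {N : ℕ}
    {c : ℝ} (hN : 1 ≤ N) (h : c + 922 * (lg N * √N) < ε * ell μ (φ x) - ε' * ell μ (φ' x)) :
    ∃ y, y ∉ box x N ∧ Relation.ReflTransGen
      (fun p q => dist1 p q = 1 ∧ c < ε * ell μ (φ q) - ε' * ell μ (φ' q)) x y := by
  obtain ⟨y, h1, h2⟩ := cp (FinalAux.gibbs_T hμ hφ hε 0) (H5.triv_T hT φ ε 0)
    (FinalAux.gibbs_T hμ hφ' hε' 0) (H5.triv_T hT φ' ε' 0) (x := x)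
    (c := c + ε' * ell μ (φ' (0, 0)) - ε * ell μ (φ (0, 0))) hN (by
      rw [ell_T hμ, ell_T hμ]
      linarith)
  refine ⟨y, h1, Relation.ReflTransGen.mono (fun p q e => And.intro e.1 ?_) x y h2⟩
  have := e.2
  rw [ell_T hμ, ell_T hμ] at this
  linarith

theorem iso_shift (v : ℤ × ℤ) : FinalAux.Iso (Equiv.addRight v) := fun x y => by
  simp

/-- the corridor principle for increments of the mean -/
theorem cpV (hμ : Gibbs μ) (hT : Triv μ) (v : ℤ × ℤ) {x : ℤ × ℤ} {N : ℕ} {c : ℝ} (hN : 1 ≤ N)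
    (h : c + 922 * (lg N * √N) < ell μ (x + v) - ell μ x) : ∃ y, y ∉ box x N ∧
      Relation.ReflTransGen (fun p q => dist1 p q = 1 ∧ c < ell μ (q + v) - ell μ q) x y := by
  simpa using cpT hμ hT (iso_shift v) (iso_shift 0) (one_mul 1) (one_mul 1) (x := x) (c := c) hN
    (by simpa using h)

/-- long almost tight segments of the mean in every annulus -/
theorem seg {δ ε : ℝ} (hδ : 0 < δ) (hε : 0 < ε) : ∃ c : ℝ, 0 < c ∧ ∀ μ : Measure Conf, Gibbs μ →
    Triv μ → ∀ᶠ R : ℕ in atTop, ∃ (x e : ℤ × ℤ) (n : ℕ), |e.1| + |e.2| = 1 ∧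
      (∀ t : ℕ, t ≤ n → (R : ℤ) ≤ nrm (x + (t : ℤ) • e) ∧
        ((nrm (x + (t : ℤ) • e) : ℤ) : ℝ) ≤ (1 + ε) * R) ∧
      (1 - δ) * n + c * R < ell μ (x + (n : ℤ) • e) - ell μ x := by
  obtain ⟨c, hc, H⟩ := long_segments δ ε hδ hε
  refine ⟨c / 2, half_pos hc, fun μ hμ hT => ?_⟩
  have := hμ.1
  obtain ⟨f, h1, h2⟩ := ((H μ hμ).and (unif' hμ hT)).exists
  have m1 : 1 + ε ≤ (⌈1 + ε⌉₊ : ℕ) := Nat.le_ceil _
  generalize ⌈1 + ε⌉₊ = m at m1
  have m0 : (0 : ℝ) < m := by linarith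
  have hm : Tendsto (fun R : ℕ => m * R) atTop atTop :=
    tendsto_id.const_mul_atTop' (by exact_mod_cast m0)
  filter_upwards [h1, hm.eventually (h2 (c / 2 / m) (by positivity))] with R a1 a2
  obtain ⟨x, e, n, he, ht, hl⟩ := a1
  have hb : ∀ t : ℕ, t ≤ n → x + (t : ℤ) • e ∈ box 0 (m * R) := fun t h => by
    rw [mem_box0]
    have := (ht t h).2.trans (mul_le_mul_of_nonneg_right m1 R.cast_nonneg)
    exact_mod_cast this
  refine ⟨x, e, n, he, ht, ?_⟩
  have a3 := (abs_le.1 (a2 x (by simpa using hb 0 (Nat.zero_le n)) _ (hb n le_rfl))).2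
  have a4 : c / 2 / m * ((m * R : ℕ) : ℝ) = c / 2 * R := by
    push_cast
    field_simp
  rw [Int.cast_sub] at hl
  linarith

end Pool.Agent.MP_151d89_pr.H95
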