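import Pool.Agent.MP_151d89_pr.H95.Mean
import Pool.Agent.MP_151d89_pr.H5.Coex

/-!
The corridor principle with one copy, and the variance of an increment along a path with few
defects.
-/

set_option autoImplicit false
open MeasureTheory Finset Filter

namespace Pool.Agent.MP_151d89_pr.H95
open Pool.Agent.MP_151d89_pr.H82 Pool.Agent.MP_151d89_pr.H33 Pool.Agent.MP_151d89_pr.H67
  Pool.Agent.MP_151d89_pr.H30 Pool.Agent.MP_151d89_pr.H58
open Pool.Agent.MP_151d89_pr.H5 (ell)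
open Classical

variable {μ : Measure Conf}

/-- the Gibbs property for functions bounded on homomorphisms -/
theorem int_av' (hμ : Gibbs μ) (Λ : Finset (ℤ × ℤ)) {φ : Conf → ℝ} (hφ : Measurable φ) {B : ℝ}
    (hB : ∀ f, Hom f → |φ f| ≤ B) :
    Integrable (av Λ φ) μ ∧ ∫ f, av Λ φ f ∂μ = ∫ f, φ f ∂μ := by
  have := hμ.1
  have m1 : Measurable fun f => ind (Hom f) * φ f := (meas_ind meas_hom).mul hφ
  have b1 : ∀ f, |ind (Hom f) * φ f| ≤ |B| := fun f => by
    by_cases e : Hom f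
    · rw [ind_pos e, one_mul]
      exact (hB f e).trans (le_abs_self B)
    · rw [ind_neg e, zero_mul, abs_zero]
      exact abs_nonneg B
  have e : av Λ φ = av Λ fun f => ind (Hom f) * φ f := funext fun g =>
    av_eq fun a ha => by rw [ind_pos (mem_FS.1 ha).1, one_mul]
  rw [e]
  refine ⟨intg (meas_av _ m1) (av_abs b1), (int_av hμ Λ m1 b1).trans ?_⟩
  exact integral_congr_ae (hμ.2.1.mono fun f hf => by simp only [ind_pos hf, one_mul])

/-- the mean of the conditional mean of a height -/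
theorem int_mn (hμ : Gibbs μ) (Λ : Finset (ℤ × ℤ)) (x : ℤ × ℤ) {w : ℤ × ℤ} (hw : w ∉ Λ) :
    Integrable (fun f => mn Λ f x - f w) μ ∧
      ∫ f, (mn Λ f x - f w) ∂μ = ell μ x - ell μ w := by
  obtain ⟨h1, h2⟩ := int_av' hμ Λ (meas_inc w x) fun f hf => inc_abs hf x w
  have e : av Λ (fun f => (f x : ℝ) - f w) =ᵐ[μ] fun f => mn Λ f x - f w :=
    hμ.2.1.mono fun f hf => by
      rw [av_sub]
      exact congrArg _ (mn_out hf hw)
  exact ⟨h1.congr e, by rw [← integral_congr_ae e, h2, H5.EllAux.ell_sub hμ]⟩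

/-- the maximum principle for a function and its own image under an isometry -/
theorem scp0 (hμ : Gibbs μ) {τ : ℤ × ℤ ≃ ℤ × ℤ} (hτ : H58.Iso τ) {D : Finset (ℤ × ℤ)} {x : ℤ × ℤ}
    (hx : x ∈ D) {a d : ℝ} (ha : -d ≤ a) (hd : ∀ y, Bdy D y → (dist1 (τ y) y : ℝ) ≤ d) :
    ell μ (τ x) - ell μ x ≤
      a + 2 + 2 * d * μ.real {f | ∃ y, Bdy D y ∧ a < (f (τ y) : ℝ) - f y} := by
  have := hμ.1
  obtain ⟨w, hw⟩ := Infinite.exists_notMem_finset (D ∪ D.map τ.toEmbedding)
  rw [mem_union, not_or] at hw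
  obtain ⟨i1, e1⟩ := int_mn hμ (D.map τ.toEmbedding) (τ x) hw.2
  obtain ⟨i2, e2⟩ := int_mn hμ D x hw.1
  have m : MeasurableSet {f : Conf | ∃ y, Bdy D y ∧ a < (f (τ y) : ℝ) - f y} := by
    rw [Set.ofPred_exists]
    refine MeasurableSet.iUnion fun y => ?_
    by_cases e : Bdy D y
    · simpa only [e, true_and] using measurableSet_lt measurable_const (meas_inc y (τ y))
    · simp [e]
  have i3 := intg (μ := μ) (meas_ind m) fun f => ind_abs _
  have e3 : ∫ f, (a + 2 + 2 * d * ind (∃ y, Bdy D y ∧ a < (f (τ y) : ℝ) - f y)) ∂μ =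
      a + 2 + 2 * d * μ.real {f | ∃ y, Bdy D y ∧ a < (f (τ y) : ℝ) - f y} := by
    rw [integral_add (integrable_const _) (i3.const_mul _), integral_const_mul, int_ind μ m]
    simp
  have e4 : ell μ (τ x) - ell μ x = ∫ f, ((mn (D.map τ.toEmbedding) f (τ x) - f w) -
      (mn D f x - f w)) ∂μ := by
    rw [integral_sub i1 i2, e1, e2]
    ring
  rw [e4, ← e3]
  refine integral_mono_ae (i1.sub i2) ((integrable_const _).add (i3.const_mul _))
    (hμ.2.1.mono fun f hf => ?_)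
  have h1 := mn_tr hτ (Or.inl rfl) 0 (Λ := D.map τ.toEmbedding) (Λ' := D)
    (fun y => (mem_map' τ.toEmbedding).symm) hf x
  have h2 := hom_tr hτ (Or.inl rfl) 0 hf
  simp only [Int.cast_one, one_mul, Int.cast_zero, add_zero] at h1
  show mn _ f (τ x) - f w - (mn D f x - f w) ≤ a + 2 + 2 * d * ind _
  rw [← h1]
  by_cases e : ∃ y, Bdy D y ∧ a < (f (τ y) : ℝ) - f y
  · have := MPP.key h2 hf hx (c := d) fun y hy => by
      simp only [tr, one_mul, add_zero]
      linarith [(abs_le.1 (inc_abs hf (τ y) y)).2, hd y hy]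
    rw [ind_pos e]
    linarith
  · have := MPP.key h2 hf hx (c := a) fun y hy => by
      simp only [tr, one_mul, add_zero]
      linarith [not_lt.1 fun e' => e ⟨y, hy, e'⟩]
    rw [ind_neg e]
    linarith

/-- the same with a union bound -/
theorem scp1 (hμ : Gibbs μ) {τ : ℤ × ℤ ≃ ℤ × ℤ} (hτ : H58.Iso τ) {D B : Finset (ℤ × ℤ)} {x : ℤ × ℤ}
    (hx : x ∈ D) {a d q : ℝ} (ha : -d ≤ a) (hd0 : 0 ≤ d) (hq : 0 ≤ q)
    (h : ∀ y, Bdy D y → y ∈ B ∧ (dist1 (τ y) y : ℝ) ≤ d ∧
      μ.real {f | a < (f (τ y) : ℝ) - f y} ≤ q) :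
    ell μ (τ x) - ell μ x ≤ a + 2 + 2 * d * (B.card * q) := by
  have := hμ.1
  refine (scp0 hμ hτ hx ha fun y hy => (h y hy).2.1).trans ?_
  gcongr
  refine (measureReal_mono (s₂ := ⋃ y ∈ B.filter (Bdy D), {f : Conf | a < (f (τ y) : ℝ) - f y})
    (fun f hf => ?_) (measure_ne_top _ _)).trans ((measureReal_biUnion_finset_le _ _).trans ((sum_le_sum fun y hy =>
      (h y (mem_filter.1 hy).2).2.2).trans ?_))
  · obtain ⟨y, h1, h2⟩ := hf
    exact Set.mem_iUnion₂.2 ⟨y, mem_filter.2 ⟨(h y h1).1, h1⟩, h2⟩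
  · rw [sum_const, nsmul_eq_mul]
    gcongr
    exact filter_subset _ _

theorem dist_add (y v : ℤ × ℤ) : dist1 (y + v) y = dist1 v 0 := by simp [dist1]

theorem dist_nonneg' (x y : ℤ × ℤ) : (0 : ℝ) ≤ dist1 x y := by
  exact_mod_cast add_nonneg (abs_nonneg _) (abs_nonneg _)

/-- the abstract corridor principle: the upper tails are needed next to the corridor only -/
theorem scp2 (hμ : Gibbs μ) (v : ℤ × ℤ) {x : ℤ × ℤ} {N : ℕ} {c a t : ℝ}
    (ha : -(dist1 v 0 : ℝ) ≤ a) (ht : 4 * (dist1 v 0 : ℝ) * (2 * N + 3) ^ 2 ≤ Real.exp (t / 2))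
    (hq : ∀ y, c - 2 ≤ ell μ (y + v) - ell μ y → ell μ (y + v) - ell μ y ≤ c →
      μ.real {f | a < (f (y + v) : ℝ) - f y} ≤ 2 * Real.exp (-(t / 2)))
    (hc : c ≤ a + 3) (h : a + 3 < ell μ (x + v) - ell μ x) : ∃ y, y ∉ box x N ∧
      Relation.ReflTransGen (fun p q => dist1 p q = 1 ∧ c < ell μ (q + v) - ell μ q) x y := by
  by_contra hn
  push Not at hn
  have hl : ∀ z z', ell μ z - ell μ z' ≤ dist1 z z' := H5.EllAux.part1 hμ
  have := scp1 hμ (iso_add v) (D := (box x N).filter fun y =>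
    Relation.ReflTransGen (fun p q => dist1 p q = 1 ∧ c < ell μ (q + v) - ell μ q) x y)
    (B := box x (N + 1)) (mem_filter.2 ⟨H5.self_mem_box x N, .refl⟩) ha (dist_nonneg' v 0)
    (q := 2 * Real.exp (-(t / 2))) (by positivity) fun y hy =>
      ⟨MP2P.bdy_box (filter_subset _ _) hy, by
        simp only [Equiv.coe_addRight, dist_add, le_refl], ?_⟩
  · rw [card_box, Real.exp_neg] at this
    simp only [Equiv.coe_addRight] at this
    push_cast at this
    have h1 : 4 * (dist1 v 0 : ℝ) * (2 * N + 3) ^ 2 * (Real.exp (t / 2))⁻¹ ≤ 1 := by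
      rw [mul_inv_le_iff₀ (Real.exp_pos _), one_mul]
      exact ht
    have h2 : 2 * (dist1 v 0 : ℝ) * ((2 * (N + 1) + 1) ^ 2 * (2 * (Real.exp (t / 2))⁻¹)) =
      4 * (dist1 v 0 : ℝ) * (2 * N + 3) ^ 2 * (Real.exp (t / 2))⁻¹ := by ring
    linarith
  · obtain ⟨y1, y', y2, y3⟩ := hy
    have y4 : c < ell μ (y' + v) - ell μ y' := by
      rcases (mem_filter.1 y2).2.cases_tail with e | ⟨z, -, e⟩
      · rw [e]
        linarith
      · exact e.2
    have y5 := hl (y' + v) (y + v)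
    have y6 := hl y y'
    have y7 : dist1 (y' + v) (y + v) = 1 := by
      rw [← y3]
      simp [dist1, abs_sub_comm]
    rw [y7] at y5
    rw [y3] at y6
    push_cast at y5 y6
    refine hq y (by linarith) (le_of_not_gt fun e => ?_)
    have r := (mem_filter.1 y2).2.tail (c := y) ⟨by rw [MacP.dist_comm', y3], e⟩
    exact y1 (mem_filter.2 ⟨by_contra fun e' => hn y e' r, r⟩)

/-- the corridor principle with an error depending on the length of the shift -/
theorem scp (hμ : Gibbs μ) (hT : Triv μ) (v : ℤ × ℤ) {x : ℤ × ℤ} {N : ℕ} {c t : ℝ} (h1 : 1 ≤ t)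
    (hc : -(dist1 v 0 : ℝ) ≤ c) (ht : 4 * (dist1 v 0 : ℝ) * (2 * N + 3) ^ 2 ≤ Real.exp (t / 2))
    (h : c + t * (6 * √(dist1 v 0) + 5) + 3 < ell μ (x + v) - ell μ x) : ∃ y, y ∉ box x N ∧
      Relation.ReflTransGen (fun p q => dist1 p q = 1 ∧ c < ell μ (q + v) - ell μ q) x y := by
  have := hμ.1
  have h0 : 0 ≤ t * (6 * √(dist1 v 0) + 5) := by positivity
  refine scp2 hμ v (a := c + t * (6 * √(dist1 v 0) + 5)) (by linarith) ht (fun y _ hy => ?_)
    (by linarith) h
  refine le_trans (measureReal_mono fun f hf => ?_) (incr hμ hT y (y + v) h1)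
  rw [MacP.dist_comm', dist_add]
  rw [Set.mem_ofPred_eq] at hf ⊢
  exact lt_of_lt_of_le (by linarith) (le_abs_self _)

/-- the probability of the step s j along the edge j of the path a -/
noncomputable def pe (Λ : Finset (ℤ × ℤ)) (g : Conf) (a : ℕ → ℤ × ℤ) (s : ℕ → ℤ) (j : ℕ) : ℝ :=
  av Λ (fun f => ind (f (a (j + 1)) - f (a j) = s j)) g

/-- the variance at the end of a path that starts at a fixed site -/
theorem var_path (l : ℕ) : ∀ (Λ : Finset (ℤ × ℤ)) (g : Conf) (a : ℕ → ℤ × ℤ) (s : ℕ → ℤ), Hom g →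
    a 0 ∉ Λ → (∀ j, j < l → dist1 (a (j + 1)) (a j) = 1 ∧ (s j = 1 ∨ s j = -1)) →
      av Λ (fun f => ((f (a l) : ℝ) - mn Λ g (a l)) ^ 2) g ≤ 4 * ∑ j ∈ range l, pe Λ g a s j := by
  induction l with
  | zero =>
    intro Λ g a s hg hz _
    rw [mn_out hg hz, sum_range_zero, mul_zero, ← av_const Λ 0 hg]
    exact av_le fun f hf => by rw [(mem_FS.1 hf).2 _ hz]; simp
  | succ l ih =>
    intro Λ g a s hg hz h
    obtain ⟨h1, h2⟩ := h 0 (Nat.succ_pos l)
    rw [zero_add] at h1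
    have hv : ∀ f ∈ FS Λ g, f (a 0) = g (a 0) ∧
        (f (a 1) = g (a 0) + 1 ∨ f (a 1) = g (a 0) - 1) := fun f hf => by
      have h3 := (mem_FS.1 hf).1 (a 1) (a 0) h1
      rw [(mem_FS.1 hf).2 _ hz, abs_eq (by norm_num)] at h3
      exact ⟨(mem_FS.1 hf).2 _ hz, by omega⟩
    obtain ⟨f0, hf0, h0⟩ : ∃ f0 ∈ FS Λ g, ∀ f ∈ FS Λ g,
        f (a 1) = f0 (a 1) ∨ f (a 1) - f (a 0) = s 0 := by
      by_cases e : ∃ f ∈ FS Λ g, f (a 1) - f (a 0) ≠ s 0
      · obtain ⟨f0, hf0, e⟩ := e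
        refine ⟨f0, hf0, fun f hf => ?_⟩
        have := hv f hf
        have := hv f0 hf0
        omega
      · exact ⟨g, self_FS Λ hg, fun f hf => Or.inr (by_contra fun e' => e ⟨f, hf, e'⟩)⟩
    have h3 := av_sq Λ (fun f => (f (a (l + 1)) : ℝ)) (mn (Λ.erase (a 1)) f0 (a (l + 1))) hg
    have hs := erase_subset (a 1) Λ
    have h4 : av Λ (fun f => ((f (a (l + 1)) : ℝ) - mn (Λ.erase (a 1)) f0 (a (l + 1))) ^ 2) g ≤
        4 * ∑ j ∈ range (l + 1), pe Λ g a s j := by
      have e : ∑ j ∈ range (l + 1), pe Λ g a s j = av Λ (fun f => ∑ j ∈ range l,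
          pe (Λ.erase (a 1)) f (fun j => a (j + 1)) (fun j => s (j + 1)) j +
          ind (f (a 1) - f (a 0) = s 0)) g := by
        rw [sum_range_succ', av_add, av_sum]
        congr 1
        exact sum_congr rfl fun j _ => (av_tower hs _ g).symm
      rw [← av_tower hs, e, ← av_smul]
      refine av_le fun f hf => ?_
      have hf' := mem_FS.1 hf
      rw [av_sq _ _ _ hf'.1, mul_add]
      refine add_le_add (ih _ f (fun j => a (j + 1)) (fun j => s (j + 1)) hf'.1 (notMem_erase _ Λ)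
        fun j hj => h (j + 1) (Nat.succ_lt_succ hj)) ?_
      change (mn _ f _ - _) ^ 2 ≤ _
      rcases h0 f hf with e | e
      · rw [mn_congr (Λ := Λ.erase (a 1)) (g := f0) (f := f) (mem_FS.2 ⟨hf'.1, fun y hy => ?_⟩),
          sub_self]
        · linarith [(ind_mem (f (a 1) - f (a 0) = s 0)).1]
        · by_cases e' : y = a 1
          · rw [e', e]
          · have : y ∉ Λ := fun e'' => hy (mem_erase.2 ⟨e', e''⟩)
            rw [hf'.2 y this, (mem_FS.1 hf0).2 y this]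
      · rw [ind_pos e]
        have b1 := hv f hf
        have b2 := hv f0 hf0
        have b3 : (f (a 1) : ℝ) - f0 (a 1) ≤ 2 := by
          exact_mod_cast (by omega : f (a 1) - f0 (a 1) ≤ 2)
        have b4 : (f0 (a 1) : ℝ) - f (a 1) ≤ 2 := by
          exact_mod_cast (by omega : f0 (a 1) - f (a 1) ≤ 2)
        unfold mn
        rcases le_total (f (a 1)) (f0 (a 1)) with h5 | h5
        · obtain ⟨c1, c2⟩ := av_lip hf hf0 (a 1) (a (l + 1)) h5
          nlinarith
        · obtain ⟨c1, c2⟩ := av_lip hf0 hf (a 1) (a (l + 1)) h5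
          nlinarith
    unfold mn at *
    nlinarith [sq_nonneg (av Λ (fun f => (f (a (l + 1)) : ℝ)) g -
      av (Λ.erase (a 1)) (fun f => (f (a (l + 1)) : ℝ)) f0)]

/-- the covariance of two heights, from the conditional variance -/
theorem cov_ge' (Λ : Finset (ℤ × ℤ)) {g : Conf} (hg : Hom g) (x y : ℤ × ℤ) {r : ℝ}
    (h : av Λ (fun f => av (Λ.erase y) (fun f' => ((f' x : ℝ) - mn (Λ.erase y) f x) ^ 2) f) g ≤ r) :
    av Λ (fun f => (f x : ℝ) ^ 2) g - mn Λ g x ^ 2 - r ≤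
      av Λ (fun f => (f y : ℝ) * f x) g - mn Λ g y * mn Λ g x := by
  unfold mn at *
  set G := av (Λ.erase y) fun f => (f x : ℝ) with hG
  have hs := erase_subset y Λ
  have e1 : av Λ G g = av Λ (fun f => (f x : ℝ)) g := av_tower hs _ g
  have e2 : av Λ (fun f => (f y : ℝ) * G f) g = av Λ (fun f => (f y : ℝ) * f x) g := by
    rw [← av_tower hs (fun f => (f y : ℝ) * f x)]
    refine av_eq fun f _ => ?_
    rw [hG, ← av_smul]
    exact av_eq fun a ha => by rw [(mem_FS.1 ha).2 y (notMem_erase y Λ)]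
  have e3 : av Λ (fun f => (f x : ℝ) ^ 2) g ≤ r + av Λ (fun f => G f * G f) g := by
    refine le_trans (le_of_eq ?_) (add_le_add h le_rfl)
    rw [← av_tower hs (fun f => (f x : ℝ) ^ 2), ← av_add]
    refine av_eq fun f hf => ?_
    have h1 := av_sq (Λ.erase y) (fun f => (f x : ℝ)) 0 (mem_FS.1 hf).1
    simp only [sub_zero] at h1
    rw [h1, sq (av _ _ f)]
  have e4 := cheb_sum (s := FS Λ g) (U := fun f => (f y : ℝ) + -1 * G f) (V := G)
    fun a ha b hb => by
      rcases le_total (a y) (b y) with h1 | h1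
      · obtain ⟨h2, h3⟩ := av_lip ha hb y x h1
        exact mul_nonneg_of_nonpos_of_nonpos (by linarith) (by linarith)
      · obtain ⟨h2, h3⟩ := av_lip hb ha y x h1
        exact mul_nonneg (by linarith) (by linarith)
  rw [av_mul_card Λ _ hg, av_mul_card Λ _ hg, av_mul_card Λ _ hg, av_add, av_smul,
    av_eq (φ := fun f => ((f y : ℝ) + -1 * G f) * G f)
      (ψ := fun f => (f y : ℝ) * G f + -1 * (G f * G f)) fun f _ => by ring,
    av_add, av_smul, e1, e2] at e4
  have hp := card_pos Λ hg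
  have h5 : ((FS Λ g).card : ℝ) ^ 2 * ((av Λ (fun f => (f y : ℝ)) g +
      -1 * av Λ (fun f => (f x : ℝ)) g) * av Λ (fun f => (f x : ℝ)) g) ≤ ((FS Λ g).card : ℝ) ^ 2 *
        (av Λ (fun f => (f y : ℝ) * f x) g + -1 * av Λ (fun f => G f * G f) g) := by nlinarith
  have h6 := le_of_mul_le_mul_left h5 (by positivity)
  nlinarith

/-- the variance of an increment is bounded by the expected number of defects along a path -/
theorem dv_fin (Λ : Finset (ℤ × ℤ)) {g : Conf} (hg : Hom g) (l : ℕ) (a : ℕ → ℤ × ℤ) (s : ℕ → ℤ)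
    (h : ∀ j, j < l → dist1 (a (j + 1)) (a j) = 1 ∧ (s j = 1 ∨ s j = -1)) :
    av Λ (fun f => (((f (a l) : ℝ) - f (a 0)) - (mn Λ g (a l) - mn Λ g (a 0))) ^ 2) g ≤
      8 * ∑ j ∈ range l, pe Λ g a s j := by
  have key : ∀ (a : ℕ → ℤ × ℤ) (s : ℕ → ℤ),
      (∀ j, j < l → dist1 (a (j + 1)) (a j) = 1 ∧ (s j = 1 ∨ s j = -1)) →
      av Λ (fun f => (f (a l) : ℝ) ^ 2) g - mn Λ g (a l) ^ 2 - 4 * ∑ j ∈ range l, pe Λ g a s j ≤
        av Λ (fun f => (f (a 0) : ℝ) * f (a l)) g - mn Λ g (a 0) * mn Λ g (a l) := fun a s h => by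
    refine cov_ge' Λ hg (a l) (a 0) ((av_le fun f hf =>
      var_path l _ f a s (mem_FS.1 hf).1 (notMem_erase _ Λ) h).trans (le_of_eq ?_))
    rw [av_smul, av_sum]
    congr 1
    exact sum_congr rfl fun j _ => av_tower (erase_subset _ Λ) _ g
  have h1 := key a s h
  have h2 := key (fun j => a (l - j)) (fun j => -s (l - 1 - j)) fun j hj => by
    obtain ⟨b1, b2⟩ := h (l - 1 - j) (by omega)
    have e1 : l - (j + 1) = l - 1 - j := by omega
    have e2 : l - j = l - 1 - j + 1 := by omega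
    simp only [e1, e2]
    exact ⟨by rw [MacP.dist_comm', b1], by omega⟩
  have e : ∑ j ∈ range l, pe Λ g (fun j => a (l - j)) (fun j => -s (l - 1 - j)) j =
      ∑ j ∈ range l, pe Λ g a s j := by
    rw [← sum_range_reflect (pe Λ g a s)]
    refine sum_congr rfl fun j hj => av_eq fun f _ => ?_
    have hj' := mem_range.1 hj
    have e1 : l - (j + 1) = l - 1 - j := by omega
    have e2 : l - j = l - 1 - j + 1 := by omega
    simp only [e1, e2]
    exact congrArg ind (propext (by omega))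
  simp only [Nat.sub_self, Nat.sub_zero, e] at h2
  rw [av_eq (φ := fun f => (f (a l) : ℝ) * f (a 0)) (ψ := fun f => (f (a 0) : ℝ) * f (a l))
    fun f _ => mul_comm _ _] at h2
  have h3 := av_sq Λ (fun f => (f (a l) : ℝ) - f (a 0)) 0 hg
  simp only [sub_zero, av_sub] at h3
  rw [av_eq (ψ := fun f => (f (a l) : ℝ) ^ 2 + (f (a 0) : ℝ) ^ 2 + -2 * ((f (a 0) : ℝ) * f (a l)))
    fun f _ => by ring, av_add, av_add, av_smul] at h3
  unfold mn at *
  nlinarith

/-- concentration with the defect variance, in a finite volume -/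
theorem dv_tail (Λ : Finset (ℤ × ℤ)) {g : Conf} (hg : Hom g) (x y : ℤ × ℤ) {P t : ℝ} (hP : 0 ≤ P)
    (h : av Λ (fun f => (((f y : ℝ) - f x) - (mn Λ g y - mn Λ g x)) ^ 2) g ≤ 8 * P) (ht : 1 ≤ t) :
    av Λ (fun f => ind (t * (12 * √P + 6) < |((f y : ℝ) - f x) - (mn Λ g y - mn Λ g x)|)) g ≤
      2 * Real.exp (-(t / 2)) := by
  have s0 := Real.sqrt_nonneg P
  have s1 := Real.sq_sqrt hP
  have hc : 1 - 1 / 4 ≤ av Λ (fun f => ind (|((f y : ℝ) - f x) - (mn Λ g y - mn Λ g x)| ≤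
      6 * √P + 1)) g := by
    refine le_trans ?_ (av_le (φ := fun f => 1 - 1 / (6 * √P + 1) ^ 2 *
      ((f y : ℝ) - f x - (mn Λ g y - mn Λ g x)) ^ 2) fun f _ => ?_)
    · rw [av_sub, av_const _ _ hg, av_smul, sub_le_sub_iff_left, one_div_mul_eq_div,
        div_le_iff₀ (by positivity)]
      nlinarith
    · generalize (f y : ℝ) - f x - (mn Λ g y - mn Λ g x) = u
      by_cases e : |u| ≤ 6 * √P + 1
      · rw [ind_pos e, sub_le_self_iff]
        positivity
      · rw [ind_neg e, sub_nonpos, one_div_mul_eq_div, one_le_div (by positivity), ← sq_abs u]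
        nlinarith [not_le.1 e]
  have h1 : 1 ≤ ⌊t⌋₊ := Nat.le_floor (by simpa using ht)
  have h2 : (2 : ℝ) ^ Nat.log 2 ⌊t⌋₊ ≤ t := le_trans
    (by exact_mod_cast Nat.pow_log_le_self 2 (by omega)) (Nat.floor_le (by linarith))
  have h3 : t < 2 ^ (Nat.log 2 ⌊t⌋₊ + 1) := (Nat.lt_floor_add_one t).trans_le
    (by exact_mod_cast Nat.lt_pow_succ_log_self one_lt_two _)
  generalize Nat.log 2 ⌊t⌋₊ = i at h2 h3
  have h4 := tail3_row Λ g _ _ _ _ i hg (mid_inc x y) (by positivity) (by norm_num) hc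
  refine (av_mono' fun f _ e => lt_of_le_of_lt ?_ e).trans (h4.trans ?_)
  · nlinarith
  · have h5 : (1 / 4 / (1 - 1 / 4) : ℝ) ≤ Real.exp (-1) := by
      rw [Real.exp_neg, le_inv_comm₀ (by norm_num) (Real.exp_pos 1)]
      linarith [Real.exp_one_lt_d9]
    refine mul_le_mul_of_nonneg_left ((pow_le_pow_left₀ (by norm_num) h5 _).trans ?_) two_pos.le
    rw [← Real.exp_nat_mul, Real.exp_le_exp]
    push_cast
    rw [pow_succ] at h3
    linarith

theorem meas_step (x y : ℤ × ℤ) (s : ℤ) : MeasurableSet {f : Conf | f y - f x = s} :=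
  measurableSet_eq_fun (by fun_prop) measurable_const

/-- concentration with the defect variance -/
theorem dv (hμ : Gibbs μ) (hT : Triv μ) (l : ℕ) (a : ℕ → ℤ × ℤ) (s : ℕ → ℤ)
    (h : ∀ j, j < l → dist1 (a (j + 1)) (a j) = 1 ∧ (s j = 1 ∨ s j = -1)) {P t : ℝ}
    (hP : ∑ j ∈ range l, μ.real {f | f (a (j + 1)) - f (a j) = s j} ≤ P) (ht : 1 ≤ t) :
    μ.real {f | t * (12 * √P + 8) <
      |((f (a l) : ℝ) - f (a 0)) - (ell μ (a l) - ell μ (a 0))|} ≤ 2 * Real.exp (-(t / 2)) := by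
  refine le_of_forall_pos_le_add fun η hη => ?_
  have P0 : 0 ≤ P := (sum_nonneg fun j _ => measureReal_nonneg).trans hP
  have hm := meas_dev (a 0) (a l) (t * (12 * √P + 8)) (ell μ (a l) - ell μ (a 0))
  have d0 := dist_nonneg' (a l) (a 0)
  have k0 : (0 : ℝ) < 1 / (144 * (l + 1)) := by positivity
  obtain ⟨m, g, hg, H⟩ := (typ hμ hT (range (l + 2)) (φ := fun j f => if j = l + 1 then
      ind (t * (12 * √P + 8) < |((f (a l) : ℝ) - f (a 0)) - (ell μ (a l) - ell μ (a 0))|)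
      else if j = l then (f (a l) : ℝ) - f (a 0) else ind (f (a (j + 1)) - f (a j) = s j))
      (B := 1 + dist1 (a l) (a 0))
    (fun j _ => by
      split_ifs
      · exact meas_ind hm
      · exact meas_inc _ _
      · exact meas_ind (meas_step _ _ _))
    (fun j _ f hf => by
      split_ifs
      · exact (ind_abs _).trans (by linarith)
      · exact (inc_abs hf _ _).trans (by linarith)
      · exact (ind_abs _).trans (by linarith)) (lt_min hη k0)).exists
  have h1 := (H (l + 1) (mem_range.2 (by omega))).trans_le (min_le_left _ _)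
  have h2 := (H l (mem_range.2 (by omega))).trans_le (min_le_right _ _)
  simp only [if_true, Nat.left_eq_add, one_ne_zero, if_false] at h1 h2
  rw [int_ind μ hm] at h1
  rw [H5.EllAux.ell_sub hμ, av_sub] at h2
  change |mn _ g (a l) - mn _ g (a 0) - _| < _ at h2
  have l0 : (0 : ℝ) ≤ l := Nat.cast_nonneg l
  have k1 : (1 : ℝ) / (144 * (l + 1)) ≤ 1 := by
    rw [div_le_one (by positivity)]
    linarith
  have h3 : ∑ j ∈ range l, pe (box 0 m) g a s j ≤ P + 1 / 144 := by
    refine le_trans (sum_le_sum (g := fun j => μ.real {f | f (a (j + 1)) - f (a j) = s j} +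
      1 / (144 * (l + 1))) fun j hj => ?_) ?_
    · have hj' := mem_range.1 hj
      have := (H j (mem_range.2 (by omega))).trans_le (min_le_right _ _)
      simp only [if_neg (show j ≠ l + 1 by omega), if_neg hj'.ne] at this
      rw [int_ind μ (meas_step _ _ _)] at this
      unfold pe
      linarith [(abs_lt.1 this).2]
    · rw [sum_add_distrib, sum_const, card_range, nsmul_eq_mul]
      refine add_le_add hP ?_
      rw [mul_one_div, div_le_div_iff₀ (by positivity) (by norm_num)]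
      linarith
  have h4 : √(P + 1 / 144) ≤ √P + 1 / 12 := by
    rw [Real.sqrt_le_left (by positivity)]
    nlinarith [Real.sq_sqrt P0, Real.sqrt_nonneg P]
  have h5 := (av_mono' (Λ := box 0 m) (g := g) (p := fun f => t * (12 * √P + 8) <
    |((f (a l) : ℝ) - f (a 0)) - (ell μ (a l) - ell μ (a 0))|) fun f _ e => ?_).trans
      (dv_tail (box 0 m) hg (a 0) (a l) (P := P + 1 / 144) (by positivity)
        ((dv_fin _ hg l a s h).trans (by linarith)) ht)
  · linarith [(abs_lt.1 h1).1]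
  · have := abs_sub_le ((f (a l) : ℝ) - f (a 0)) (mn (box 0 m) g (a l) - mn (box 0 m) g (a 0))
      (ell μ (a l) - ell μ (a 0))
    nlinarith

/-- the probability of a descending edge -/
theorem desc (hμ : Gibbs μ) {x y : ℤ × ℤ} (h : dist1 y x = 1) :
    μ.real {f | f y - f x = -1} = (1 - (ell μ y - ell μ x)) / 2 := by
  have := hμ.1
  have e : ∫ f, ((f y : ℝ) - f x) ∂μ = ∫ f, (1 - 2 * ind (f y - f x = -1)) ∂μ :=
    integral_congr_ae (hμ.2.1.mono fun f hf => by
      have h1 := hf y x h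
      rw [abs_eq (by norm_num)] at h1
      show (f y : ℝ) - f x = 1 - 2 * ind _
      rw [← Int.cast_sub]
      rcases h1 with h1 | h1
      · rw [ind_neg (by omega), h1]
        norm_num
      · rw [ind_pos h1, h1]
        norm_num)
  rw [← H5.EllAux.ell_sub hμ, e, integral_sub (integrable_const _)
    ((intg (meas_ind (meas_step x y (-1))) fun f => ind_abs _).const_mul 2), integral_const_mul,
    int_ind μ (meas_step x y (-1))]
  simp

/-- concentration along any path in terms of the mean defect -/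
theorem dv_path (hμ : Gibbs μ) (hT : Triv μ) (l : ℕ) (a : ℕ → ℤ × ℤ)
    (h : ∀ j, j < l → dist1 (a (j + 1)) (a j) = 1) {P t : ℝ}
    (hP : l - 2 * P ≤ ell μ (a l) - ell μ (a 0)) (ht : 1 ≤ t) :
    μ.real {f | t * (12 * √P + 8) <
      |((f (a l) : ℝ) - f (a 0)) - (ell μ (a l) - ell μ (a 0))|} ≤ 2 * Real.exp (-(t / 2)) := by
  refine dv hμ hT l a (fun _ => -1) (fun j hj => ⟨h j hj, Or.inr rfl⟩) ?_ ht
  rw [sum_congr rfl fun j hj => desc hμ (h j (mem_range.1 hj)), ← sum_div, sum_sub_distrib,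
    sum_range_sub fun j => ell μ (a j), sum_const, card_range, nsmul_eq_mul]
  linarith

/-- the corridor principle for almost tight windows -/
theorem scpD (hμ : Gibbs μ) (hT : Triv μ) {e : ℤ × ℤ} (he : |e.1| + |e.2| = 1) {x : ℤ × ℤ}
    {n N : ℕ} {κ t : ℝ} (h1 : 1 ≤ t) (hκ : κ ≤ n) (ht : 4 * (n : ℝ) * (2 * N + 3) ^ 2 ≤ Real.exp (t / 2))
    (h : n - 2 * κ + t * (12 * √(κ + 1) + 8) + 3 < ell μ (x + (n : ℤ) • e) - ell μ x) :
    ∃ y, y ∉ box x N ∧ Relation.ReflTransGen
      (fun p q => dist1 p q = 1 ∧ n - 2 * κ < ell μ (q + (n : ℤ) • e) - ell μ q) x y := by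
  have := hμ.1
  have h0 : 0 ≤ t * (12 * √(κ + 1) + 8) := by positivity
  have hd : (dist1 ((n : ℤ) • e) 0 : ℝ) = n := by
    have := (H5.CoexAux.d1_ray he 0 n).2
    rw [zero_add] at this
    exact_mod_cast this
  refine scp2 hμ _ (a := n - 2 * κ + t * (12 * √(κ + 1) + 8)) (by rw [hd]; linarith)
    (by rw [hd]; exact ht) (fun y hy hy' => ?_) (by linarith) h
  have h2 := dv_path hμ hT n (fun j => y + (j : ℤ) • e) (fun j _ => by
    have := (H5.CoexAux.d1_ray he (y + (j : ℤ) • e) 1).2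
    push_cast at this ⊢
    rw [add_smul, ← add_assoc]
    exact this) (P := κ + 1) (by simp only [Nat.cast_zero, zero_smul, add_zero]; linarith) h1
  simp only [Nat.cast_zero, zero_smul, add_zero] at h2
  refine le_trans (measureReal_mono fun f hf => ?_) h2
  rw [Set.mem_ofPred_eq] at hf ⊢
  exact lt_of_lt_of_le (by linarith) (le_abs_self _)

end Pool.Agent.MP_151d89_pr.H95
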